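import Pool.Agent.Helper16.SYM.Defs

/-!
# Project SYM, pieces B1 (`exists_padic`) and B2 (`near_root`)
-/

namespace Pool.Agent.Helper26.SYM

open Polynomial IsLocalRing

universe u

/-- Integral elements of `PadicAlgCl p` have norm at most one. -/
theorem norm_le_one_of_isIntegral {p : ℕ} [Fact p.Prime] {x : PadicAlgCl p}
    (hx : IsIntegral ℤ x) : ‖x‖ ≤ 1 := by
  have hi : (Valued.v : Valuation (PadicAlgCl p) NNReal).Integers
      (Valued.v : Valuation (PadicAlgCl p) NNReal).integer := Valuation.integer.integers _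
  have hx' : IsIntegral (Valued.v : Valuation (PadicAlgCl p) NNReal).integer x := hx.tower_top
  have h := hi.mem_of_integral hx'
  rw [Valuation.mem_integer_iff] at h
  rw [← PadicAlgCl.valuation_coe]
  exact_mod_cast h

/-- B1 -/
theorem exists_padic {Q : Type*} [Field Q] [CharZero Q] [Algebra ℚ Q] [Algebra.IsAlgebraic ℚ Q]
    (S : Finset Q) (n : ℕ) :
    ∃ (p : ℕ) (_ : Fact p.Prime), n < p ∧ ∃ σ : Q →+* PadicAlgCl p, ∀ x ∈ S, ‖σ x‖ ≤ 1 := by
  classical
  have : Algebra.IsAlgebraic ℤ Q :=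
    (IsFractionRing.comap_isAlgebraic_iff (A := ℤ) (K := ℚ) (C := Q)).mpr inferInstance
  obtain ⟨m, hm0, hm⟩ := Algebra.IsAlgebraic.exists_integral_multiples ℤ S
  obtain ⟨p, hp, hpp⟩ := Nat.exists_infinite_primes (n + m.natAbs + 1)
  have : Fact p.Prime := ⟨hpp⟩
  refine ⟨p, ⟨hpp⟩, by omega, ?_⟩
  let σ : Q →ₐ[ℚ] PadicAlgCl p := IsAlgClosed.lift
  refine ⟨σ.toRingHom, fun x hx => ?_⟩
  have h1 : IsIntegral ℤ (σ (m • x)) := (hm x hx).map (σ.toRingHom.toIntAlgHom)
  have h2 := norm_le_one_of_isIntegral h1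
  have h3 : σ (m • x) = (m : PadicAlgCl p) * σ x := by
    rw [zsmul_eq_mul, map_mul, map_intCast]
  have h4 : ‖(m : PadicAlgCl p)‖ = 1 := by
    have e : ((m : ℚ_[p]) : PadicAlgCl p) = (m : PadicAlgCl p) := by
      exact map_intCast (algebraMap ℚ_[p] (PadicAlgCl p)) m
    rw [← e, PadicAlgCl.norm_extends, Padic.norm_intCast_eq_one_iff]
    rw [Int.isCoprime_iff_gcd_eq_one, Int.gcd_comm]
    change Nat.Coprime p m.natAbs
    rw [Nat.Prime.coprime_iff_not_dvd hpp]
    intro hd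
    have := Nat.le_of_dvd (Int.natAbs_pos.mpr hm0) hd
    omega
  rw [h3, norm_mul, h4, one_mul] at h2
  exact h2

/-- B2 -/
theorem near_root {p : ℕ} [Fact p.Prime] {Q : Type*} [Field Q] [IsAlgClosed Q]
    (σ : Q →+* PadicAlgCl p) (f : Q[X]) (hf : f.Monic) (b : Q) (hb : ‖σ (f.eval b)‖ < 1) :
    ∃ b' : Q, f.eval b' = 0 ∧ ‖σ b' - σ b‖ < 1 := by
  by_contra hcon
  push Not at hcon
  have h1 : ∀ s : Multiset Q, (∀ a ∈ s, 1 ≤ ‖σ a - σ b‖) →
      1 ≤ ‖σ ((s.map (fun a => b - a)).prod)‖ := by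
    intro s
    induction s using Multiset.induction_on with
    | empty => intro _; simp
    | cons a s ih =>
      intro hs
      rw [Multiset.map_cons, Multiset.prod_cons, map_mul, norm_mul, map_sub, norm_sub_rev]
      have i1 := hs a (Multiset.mem_cons_self a s)
      have i2 := ih (fun c hc => hs c (Multiset.mem_cons_of_mem hc))
      nlinarith
  have h2 := h1 f.roots (fun a ha => hcon a (by
    have := (mem_roots hf.ne_zero).1 ha
    exact this))
  rw [← (IsAlgClosed.splits f).eval_eq_prod_roots_of_monic hf] at h2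
  exact absurd hb (not_lt.mpr h2)

end Pool.Agent.Helper26.SYM
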